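import Mathlib
import Pool.Agent.V11117.SpecC

namespace Pool.Agent.Results.MP_efe8c5_co.SuspensionHeight

open Finset Matrix Pool.Agent.V11117

/-- A magnetic potential on `G`: a unit complex number `σ x y` on every ordered pair of
adjacent vertices, with `σ y x = (σ x y)⁻¹` (values on non-adjacent pairs play no role). -/
structure MagneticPotential {V : Type*} (G : SimpleGraph V) where
  val : V → V → ℂ
  norm_eq_one : ∀ x y, G.Adj x y → ‖val x y‖ = 1
  val_symm : ∀ x y, G.Adj x y → val y x = (val x y)⁻¹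

section defs
variable {V : Type*} [Fintype V] [DecidableEq V] (G : SimpleGraph V) [DecidableRel G.Adj]

/-- The magnetic Laplacian `f ↦ (x ↦ ∑_{y ∼ x} (f x - σ(x,y) f y))`. -/
noncomputable def magLaplacian {G : SimpleGraph V} [DecidableRel G.Adj]
    (σ : MagneticPotential G) : (V → ℂ) →ₗ[ℂ] (V → ℂ) where
  toFun f x := ∑ y ∈ G.neighborFinset x, (f x - σ.val x y * f y)
  map_add' f g := by
    funext x
    simp only [Pi.add_apply]
    rw [← Finset.sum_add_distrib]
    exact Finset.sum_congr rfl fun y _ => by ring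
  map_smul' c f := by
    funext x
    simp only [Pi.smul_apply, smul_eq_mul, RingHom.id_apply]
    rw [Finset.mul_sum]
    exact Finset.sum_congr rfl fun y _ => by ring

/-- The smallest eigenvalue of the magnetic Laplacian. -/
noncomputable def lambda1 {G : SimpleGraph V} [DecidableRel G.Adj]
    (σ : MagneticPotential G) : ℝ :=
  sInf {t : ℝ | Module.End.HasEigenvalue (magLaplacian σ) (t : ℂ)}

/-- The magneto-spectral height: the supremum of `lambda1 σ` over all magnetic potentials. -/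
noncomputable def height (G : SimpleGraph V) [DecidableRel G.Adj] : ℝ :=
  ⨆ σ : MagneticPotential G, lambda1 σ

end defs

/-- The suspension of `G`: a new vertex `none` is added and joined to every vertex of `G`. -/
def suspension {V : Type*} (G : SimpleGraph V) : SimpleGraph (Option V) where
  Adj a b := match a, b with
    | some x, some y => G.Adj x y
    | none, some _ => True
    | some _, none => True
    | none, none => False
  symm := ⟨fun a b h => by
    rcases a with _ | a <;> rcases b with _ | b <;> simp_all [SimpleGraph.adj_comm]⟩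
  loopless := ⟨fun a h => by
    rcases a with _ | a <;> simp_all⟩

instance {V : Type*} (G : SimpleGraph V) [DecidableRel G.Adj] :
    DecidableRel (suspension G).Adj := fun a b =>
  match a, b with
  | some x, some y => inferInstanceAs (Decidable (G.Adj x y))
  | none, some _ => isTrue trivial
  | some _, none => isTrue trivial
  | none, none => isFalse id

section general
variable {V : Type*} [Fintype V] [DecidableEq V] {G : SimpleGraph V} [DecidableRel G.Adj]

/-- the matrix of the magnetic Laplacian -/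
noncomputable def mat (σ : MagneticPotential G) : Matrix V V ℂ :=
  Matrix.of fun x y => (if x = y then (G.degree x : ℂ) else 0) - (if G.Adj x y then σ.val x y else 0)

lemma mat_mulVec (σ : MagneticPotential G) (f : V → ℂ) : mat σ *ᵥ f = magLaplacian σ f := by
  funext x
  simp only [mat, Matrix.mulVec, dotProduct, Matrix.of_apply, magLaplacian, LinearMap.coe_mk,
    AddHom.coe_mk, sub_mul, Finset.sum_sub_distrib, Finset.sum_const, ite_mul, zero_mul]
  rw [Finset.sum_ite_eq, if_pos (mem_univ _), ← Finset.sum_filter]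
  congr 1
  · simp
  · refine Finset.sum_congr ?_ fun _ _ => rfl
    ext y; simp

lemma mat_herm (σ : MagneticPotential G) : (mat σ).IsHermitian := by
  ext x y
  simp only [Matrix.conjTranspose_apply, mat, Matrix.of_apply, star_sub]
  by_cases hxy : x = y
  · subst hxy
    simp
  · simp only [hxy, Ne.symm hxy, if_false, star_zero, zero_sub, neg_inj]
    by_cases h : G.Adj x y
    · simp only [h, h.symm, if_true]
      rw [σ.val_symm x y h]
      have h1 := σ.norm_eq_one x y h
      rw [star_inv₀]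
      have h2 : (star (σ.val x y))⁻¹ = σ.val x y := by
        have h3 : star (σ.val x y) * σ.val x y = 1 := by
          have := Complex.conj_mul' (σ.val x y)
          rw [h1] at this
          simpa using this
        exact (eq_inv_of_mul_eq_one_right h3).symm
      exact h2
    · have h' : ¬ G.Adj y x := fun h'' => h h''.symm
      simp [h, h']

lemma rayleigh (σ : MagneticPotential G) (f : V → ℂ) :
    lambda1 σ * (∑ x, ‖f x‖ ^ 2) ≤ (∑ x, star (f x) * magLaplacian σ f x).re := by
  have hM := mat_herm σ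
  have hev : ∀ i, lambda1 σ ≤ hM.eigenvalues i := by
    intro i
    apply csInf_le
    · have hfin : {z : ℂ | Module.End.HasEigenvalue (magLaplacian σ) z}.Finite :=
        Module.End.finite_hasEigenvalue _
      exact (hfin.preimage (Complex.ofReal_injective.injOn)).bddBelow
    · obtain ⟨y, hy, h⟩ := SpecC.exists_vec hM i
      refine Module.End.hasEigenvalue_of_hasEigenvector (x := y) ⟨?_, hy⟩
      rw [Module.End.mem_eigenspace_iff, ← mat_mulVec]
      exact h
  have h := SpecC.quad_ge hM (lambda1 σ) hev f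
  rw [mat_mulVec] at h
  exact h

lemma lambda1_ge [Nonempty V] (σ : MagneticPotential G) (c : ℝ)
    (h : ∀ f : V → ℂ, c * (∑ x, ‖f x‖ ^ 2) ≤ (∑ x, star (f x) * magLaplacian σ f x).re) :
    c ≤ lambda1 σ := by
  apply le_csInf
  · have hM := mat_herm σ
    obtain ⟨i⟩ := (inferInstance : Nonempty V)
    obtain ⟨y, hy, hy2⟩ := SpecC.exists_vec hM i
    refine ⟨hM.eigenvalues i, Module.End.hasEigenvalue_of_hasEigenvector (x := y) ⟨?_, hy⟩⟩
    rw [Module.End.mem_eigenspace_iff, ← mat_mulVec]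
    exact hy2
  · intro t ht
    obtain ⟨f, hf, hf0⟩ := Module.End.HasEigenvalue.exists_hasEigenvector ht
    rw [Module.End.mem_eigenspace_iff] at hf
    have h1 := h f
    rw [hf] at h1
    have h2 : ∑ x, star (f x) * ((t : ℂ) • f) x = ((t * ∑ x, ‖f x‖ ^ 2 : ℝ) : ℂ) := by
      rw [Finset.mul_sum, Complex.ofReal_sum]
      refine Finset.sum_congr rfl fun x _ => ?_
      rw [Pi.smul_apply, smul_eq_mul]
      push_cast
      rw [← Complex.conj_mul', Complex.star_def]
      ring
    rw [h2, Complex.ofReal_re] at h1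
    have h3 : 0 < ∑ x, ‖f x‖ ^ 2 := by
      obtain ⟨x, hx⟩ := Function.ne_iff.mp hf0
      have h4 : 0 < ‖f x‖ ^ 2 := by
        have : 0 < ‖f x‖ := norm_pos_iff.mpr hx
        positivity
      exact Finset.sum_pos' (fun _ _ => sq_nonneg _) ⟨x, mem_univ x, h4⟩
    exact le_of_mul_le_mul_right h1 h3

lemma magLap_apply (σ : MagneticPotential G) (f : V → ℂ) (x : V) :
    magLaplacian σ f x = ∑ y, if G.Adj x y then (f x - σ.val x y * f y) else 0 := by
  rw [← Finset.sum_filter]
  refine Finset.sum_congr ?_ fun _ _ => rfl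
  ext y; simp

end general

/-- The witness: the complete graph on `0, 1, 2, 3` with a pendant vertex `4` attached to `0`. -/
def G5 : SimpleGraph (Fin 5) where
  Adj i j := i ≠ j ∧ ((i.val < 4 ∧ j.val < 4) ∨ (i.val = 0 ∧ j.val = 4) ∨ (i.val = 4 ∧ j.val = 0))
  symm := ⟨fun i j h => ⟨h.1.symm, by omega⟩⟩
  loopless := ⟨fun i h => h.1 rfl⟩

instance : DecidableRel G5.Adj := fun i j => by
  unfold G5
  infer_instance

/-- the antibalanced potential -/
def neg1 : MagneticPotential G5 where
  val _ _ := -1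
  norm_eq_one _ _ _ := by simp
  val_symm _ _ _ := by norm_num

lemma low_real (a b c d e : ℝ) : 0.6 * (a ^ 2 + b ^ 2 + c ^ 2 + d ^ 2 + e ^ 2) ≤
    a * (4 * a + b + c + d + e) + b * (3 * b + a + c + d) + c * (3 * c + a + b + d)
      + d * (3 * d + a + b + c) + e * (e + a) := by
  nlinarith [sq_nonneg (e + 2.5 * a), sq_nonneg (0.9 * a + b + c + d), sq_nonneg (b - c),
    sq_nonneg (b - d), sq_nonneg (c - d), sq_nonneg b, sq_nonneg c, sq_nonneg d]

lemma low : 0.6 ≤ lambda1 neg1 := by
  apply lambda1_ge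
  intro f
  have d : ∀ i j, G5.Adj i j ↔ (i, j) ∈ ({(0,1),(1,0),(0,2),(2,0),(0,3),(3,0),(0,4),(4,0),
    (1,2),(2,1),(1,3),(3,1),(2,3),(3,2)} : Finset (Fin 5 × Fin 5)) := by decide
  have h0 : magLaplacian neg1 f 0 = 4 * f 0 + f 1 + f 2 + f 3 + f 4 := by
    rw [magLap_apply, Fin.sum_univ_five]
    have a : ¬ G5.Adj 0 0 ∧ G5.Adj 0 1 ∧ G5.Adj 0 2 ∧ G5.Adj 0 3 ∧ G5.Adj 0 4 := by decide
    rw [if_neg a.1, if_pos a.2.1, if_pos a.2.2.1, if_pos a.2.2.2.1, if_pos a.2.2.2.2]
    simp only [neg1]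
    ring
  have h1 : magLaplacian neg1 f 1 = 3 * f 1 + f 0 + f 2 + f 3 := by
    rw [magLap_apply, Fin.sum_univ_five]
    have a : G5.Adj 1 0 ∧ ¬ G5.Adj 1 1 ∧ G5.Adj 1 2 ∧ G5.Adj 1 3 ∧ ¬ G5.Adj 1 4 := by decide
    rw [if_pos a.1, if_neg a.2.1, if_pos a.2.2.1, if_pos a.2.2.2.1, if_neg a.2.2.2.2]
    simp only [neg1]
    ring
  have h2 : magLaplacian neg1 f 2 = 3 * f 2 + f 0 + f 1 + f 3 := by
    rw [magLap_apply, Fin.sum_univ_five]
    have a : G5.Adj 2 0 ∧ G5.Adj 2 1 ∧ ¬ G5.Adj 2 2 ∧ G5.Adj 2 3 ∧ ¬ G5.Adj 2 4 := by decide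
    rw [if_pos a.1, if_pos a.2.1, if_neg a.2.2.1, if_pos a.2.2.2.1, if_neg a.2.2.2.2]
    simp only [neg1]
    ring
  have h3 : magLaplacian neg1 f 3 = 3 * f 3 + f 0 + f 1 + f 2 := by
    rw [magLap_apply, Fin.sum_univ_five]
    have a : G5.Adj 3 0 ∧ G5.Adj 3 1 ∧ G5.Adj 3 2 ∧ ¬ G5.Adj 3 3 ∧ ¬ G5.Adj 3 4 := by decide
    rw [if_pos a.1, if_pos a.2.1, if_pos a.2.2.1, if_neg a.2.2.2.1, if_neg a.2.2.2.2]
    simp only [neg1]
    ring
  have h4 : magLaplacian neg1 f 4 = f 4 + f 0 := by
    rw [magLap_apply, Fin.sum_univ_five]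
    have a : G5.Adj 4 0 ∧ ¬ G5.Adj 4 1 ∧ ¬ G5.Adj 4 2 ∧ ¬ G5.Adj 4 3 ∧ ¬ G5.Adj 4 4 := by decide
    rw [if_pos a.1, if_neg a.2.1, if_neg a.2.2.1, if_neg a.2.2.2.1, if_neg a.2.2.2.2]
    simp only [neg1]
    ring
  rw [Fin.sum_univ_five, Fin.sum_univ_five, h0, h1, h2, h3, h4]
  have hn : ∀ z : ℂ, ‖z‖ ^ 2 = z.re ^ 2 + z.im ^ 2 := fun z => by
    rw [← Complex.normSq_eq_norm_sq, Complex.normSq_apply]; ring
  have r := low_real (f 0).re (f 1).re (f 2).re (f 3).re (f 4).re
  have i := low_real (f 0).im (f 1).im (f 2).im (f 3).im (f 4).im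
  simp only [hn, Complex.add_re, Complex.mul_re, Complex.add_im, Complex.mul_im, Complex.star_def,
    Complex.conj_re, Complex.conj_im, Complex.re_ofNat, Complex.im_ofNat]
  linarith

lemma bdd (σ : MagneticPotential G5) : lambda1 σ ≤ 1 := by
  have h := rayleigh σ (fun x => if x = 4 then 1 else 0)
  have h4 : magLaplacian σ (fun x => if x = 4 then 1 else 0) 4 = 1 := by
    rw [magLap_apply, Fin.sum_univ_five]
    have a : G5.Adj 4 0 ∧ ¬ G5.Adj 4 1 ∧ ¬ G5.Adj 4 2 ∧ ¬ G5.Adj 4 3 ∧ ¬ G5.Adj 4 4 := by decide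
    rw [if_pos a.1, if_neg a.2.1, if_neg a.2.2.1, if_neg a.2.2.2.1, if_neg a.2.2.2.2]
    simp
  rw [Fin.sum_univ_five, Fin.sum_univ_five, h4] at h
  simpa using h

lemma unit_mul (G : SimpleGraph (Option (Fin 5))) (σ : MagneticPotential G) (x y : Option (Fin 5))
    (h : G.Adj x y) : σ.val x y * σ.val y x = 1 ∧ star (σ.val x y) * σ.val x y = 1 := by
  have h1 := σ.norm_eq_one x y h
  constructor
  · rw [σ.val_symm x y h]
    apply mul_inv_cancel₀
    intro h0
    rw [h0] at h1
    simp at h1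
  · have := Complex.conj_mul' (σ.val x y)
    rw [h1] at this
    simpa using this

lemma upper (σ : MagneticPotential (suspension G5)) : lambda1 σ ≤ 30 / 19 := by
  set s := σ.val (some 0) (some 4) with hs
  set r := σ.val none (some 4) with hr
  let f : Option (Fin 5) → ℂ := fun v => match v with
    | none => (1 / 6 : ℂ) * r
    | some x => if x = 4 then 1 else if x = 0 then (1 / 6 : ℂ) * s else 0
  have a04 : (suspension G5).Adj (some 0) (some 4) := by decide
  have aN4 : (suspension G5).Adj none (some 4) := by decide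
  have aN0 : (suspension G5).Adj none (some 0) := by decide
  obtain ⟨hs1, hs2⟩ := unit_mul _ σ _ _ a04
  obtain ⟨hr1, hr2⟩ := unit_mul _ σ _ _ aN4
  have ns := σ.norm_eq_one _ _ a04
  have nr := σ.norm_eq_one _ _ aN4
  have n0 := σ.norm_eq_one _ _ aN0
  have n0' := σ.norm_eq_one _ _ aN0.symm
  rw [← hs] at hs1 hs2 ns
  rw [← hr] at hr1 hr2 nr
  have f4 : f (some 4) = 1 := rfl
  have f0 : f (some 0) = (1 / 6 : ℂ) * s := rfl
  have fN : f none = (1 / 6 : ℂ) * r := rfl
  have f1 : f (some 1) = 0 := rfl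
  have f2 : f (some 2) = 0 := rfl
  have f3 : f (some 3) = 0 := rfl
  have hL4 : magLaplacian σ f (some 4) = 2 - 2 * (1 / 6) := by
    rw [magLap_apply, Fintype.sum_option, Fin.sum_univ_five]
    have a : (suspension G5).Adj (some 4) none ∧ (suspension G5).Adj (some 4) (some 0) ∧
      ¬ (suspension G5).Adj (some 4) (some 1) ∧ ¬ (suspension G5).Adj (some 4) (some 2) ∧
      ¬ (suspension G5).Adj (some 4) (some 3) ∧ ¬ (suspension G5).Adj (some 4) (some 4) := by
      decide
    rw [if_pos a.1, if_pos a.2.1, if_neg a.2.2.1, if_neg a.2.2.2.1, if_neg a.2.2.2.2.1,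
      if_neg a.2.2.2.2.2, f4, f0, fN]
    linear_combination (-1 / 6 : ℂ) * hs1 + (-1 / 6 : ℂ) * hr1
  have hL0 : magLaplacian σ f (some 0)
      = 5 * (1 / 6 * s) - s - σ.val (some 0) none * (1 / 6 * r) := by
    rw [magLap_apply, Fintype.sum_option, Fin.sum_univ_five]
    have a : (suspension G5).Adj (some 0) none ∧ ¬ (suspension G5).Adj (some 0) (some 0) ∧
      (suspension G5).Adj (some 0) (some 1) ∧ (suspension G5).Adj (some 0) (some 2) ∧
      (suspension G5).Adj (some 0) (some 3) ∧ (suspension G5).Adj (some 0) (some 4) := by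
      decide
    rw [if_pos a.1, if_neg a.2.1, if_pos a.2.2.1, if_pos a.2.2.2.1, if_pos a.2.2.2.2.1,
      if_pos a.2.2.2.2.2, f4, f0, fN, f1, f2, f3, ← hs]
    ring
  have hLN : magLaplacian σ f none
      = 5 * (1 / 6 * r) - r - σ.val none (some 0) * (1 / 6 * s) := by
    rw [magLap_apply, Fintype.sum_option, Fin.sum_univ_five]
    have a : ¬ (suspension G5).Adj none none ∧ (suspension G5).Adj none (some 0) ∧
      (suspension G5).Adj none (some 1) ∧ (suspension G5).Adj none (some 2) ∧
      (suspension G5).Adj none (some 3) ∧ (suspension G5).Adj none (some 4) := by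
      decide
    rw [if_neg a.1, if_pos a.2.1, if_pos a.2.2.1, if_pos a.2.2.2.1, if_pos a.2.2.2.2.1,
      if_pos a.2.2.2.2.2, f4, f0, fN, f1, f2, f3, ← hr]
    ring
  have h := rayleigh σ f
  rw [Fintype.sum_option, Fintype.sum_option, Fin.sum_univ_five, Fin.sum_univ_five, hL4, hL0, hLN,
    f4, f0, fN, f1, f2, f3] at h
  have e1 : star (1 / 6 * r) * (5 * (1 / 6 * r) - r - σ.val none (some 0) * (1 / 6 * s)) +
      (star (1 / 6 * s) * (5 * (1 / 6 * s) - s - σ.val (some 0) none * (1 / 6 * r)) +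
        star 0 * (magLaplacian σ) f (some 1) + star 0 * (magLaplacian σ) f (some 2)
        + star 0 * (magLaplacian σ) f (some 3) + star 1 * (2 - 2 * (1 / 6)))
      = (29 / 18 + 1 / 36 * (- (star r * σ.val none (some 0) * s))
        + 1 / 36 * (- (star s * σ.val (some 0) none * r)) : ℂ) := by
    have st : ∀ z : ℂ, star (1 / 6 * z) = 1 / 6 * star z := fun z => by
      rw [star_mul']
      simp
    rw [st, st, star_zero, star_one]
    linear_combination (-1 / 36 : ℂ) * hs2 + (-1 / 36 : ℂ) * hr2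
  rw [e1] at h
  have nn1 : (-(star r * σ.val none (some 0) * s)).re ≤ 1 := by
    refine (Complex.re_le_norm _).trans ?_
    rw [norm_neg, norm_mul, norm_mul, norm_star, nr, n0, ns]
    norm_num
  have nn2 : (-(star s * σ.val (some 0) none * r)).re ≤ 1 := by
    refine (Complex.re_le_norm _).trans ?_
    rw [norm_neg, norm_mul, norm_mul, norm_star, nr, n0', ns]
    norm_num
  have h8 : (29 / 18 + 1 / 36 * (- (star r * σ.val none (some 0) * s))
        + 1 / 36 * (- (star s * σ.val (some 0) none * r)) : ℂ).re ≤ 5 / 3 := by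
    have e2 : (29 / 18 + 1 / 36 * (- (star r * σ.val none (some 0) * s))
        + 1 / 36 * (- (star s * σ.val (some 0) none * r)) : ℂ)
        = ((29 / 18 : ℝ) : ℂ) + ((1 / 36 : ℝ) : ℂ) * (- (star r * σ.val none (some 0) * s))
        + ((1 / 36 : ℝ) : ℂ) * (- (star s * σ.val (some 0) none * r)) := by
      push_cast
      ring
    rw [e2, Complex.add_re, Complex.add_re, Complex.re_ofReal_mul, Complex.re_ofReal_mul,
      Complex.ofReal_re]
    linarith
  have h9 : (‖1 / 6 * r‖ ^ 2 + (‖1 / 6 * s‖ ^ 2 + ‖(0 : ℂ)‖ ^ 2 + ‖(0 : ℂ)‖ ^ 2 + ‖(0 : ℂ)‖ ^ 2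
      + ‖(1 : ℂ)‖ ^ 2)) = 19 / 18 := by
    rw [norm_mul, norm_mul, nr, ns, norm_zero, norm_one]
    norm_num
  rw [h9] at h
  linarith

/-- **Disproof of `ν(G̃) = ν(G) + 1` for graphs without isolated vertices.** -/
theorem result : ∃ (n : ℕ) (G : SimpleGraph (Fin n)) (_ : DecidableRel G.Adj),
    1 ≤ n ∧ (∀ v, ∃ w, G.Adj v w) ∧ height (suspension G) ≠ height G + 1 := by
  refine ⟨5, G5, inferInstance, by norm_num, by decide, ?_⟩
  have h1 : 0.6 ≤ height G5 :=
    low.trans (le_ciSup (f := fun σ : MagneticPotential G5 => lambda1 σ)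
      ⟨1, by rintro _ ⟨σ, rfl⟩; exact bdd σ⟩ neg1)
  have : Nonempty (MagneticPotential (suspension G5)) :=
    ⟨{ val := fun _ _ => -1
       norm_eq_one := fun _ _ _ => by simp
       val_symm := fun _ _ _ => by norm_num }⟩
  have h2 : height (suspension G5) ≤ 30 / 19 := ciSup_le upper
  intro h
  rw [h] at h2
  norm_num at h1 h2
  linarith

end Pool.Agent.Results.MP_efe8c5_co.SuspensionHeight
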